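import Mathlib
import Pool.Agent.Run7.h510.B3.Main

/-!
The Fermat quotients `(3 ^ (p - 1) - 1) / p` avoid, modulo `p`, every rational number `a / b` for a
positive proportion of the primes `p ≤ x`, uniformly for `|a|, |b| ≤ exp (x / 4000)`.
For `a = 0`, `b = 1` these are the primes `p` which divide `3 ^ (p - 1) - 1` exactly once.
-/

theorem Pool.Agent.Results.MP_2ec8a3_nt.FermatQuotientBase3.result :
    ∃ x₀ : ℕ, ∀ x : ℕ, x₀ ≤ x → ∀ a b : ℤ, b ≠ 0 →
      |(a : ℝ)| ≤ Real.exp (x / 4000) → |(b : ℝ)| ≤ Real.exp (x / 4000) →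
        (x : ℝ) / (110 * Real.log x) ≤
          ({p : ℕ | p ≤ x ∧ p.Prime ∧
            ¬ (p : ℤ) ^ 2 ∣ b * (3 ^ (p - 1) - 1) - a * p}.ncard : ℝ) :=
  Run7.h510.B3.density_all
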