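import Mathlib
import Pool.Agent.Run7.h585.NF.RatB

/-!
# The law of the prime powers in the exceptions to `c < rad (abc) ^ M`

Let `1/3 < M < 1/2`. The exceptional triples are the triples of coprime positive integers `a + b = c` with `c ≤ x` and
`c ≥ rad (abc) ^ M`; their number is `x ^ (1/M - 1 + o(1))` (for almost all triples `rad (abc)` is about `c ^ 3`). If `p ^ 2`
divides `n`, the excess of `n` at `p` is the size `(v_p(n) - 1) log p` of the part of the power of `p` which is lost in the
radical; the excesses of `a`, `b`, `c` make up the defect `log (abc / rad (abc))` of an exceptional triple.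

With `L = log x` and `κ = 3 - 1/M`, for all exceptional triples but a proportion of at most
`exp (-δ √(log x / log log x))`, and for each of `n = a`, `b`, `c`:

* `n` is divisible by the squares of `(1 + o(1)) √(2κL/(3 log L))` primes, and the excesses are distributed like as many
  copies of an exponential random variable with mean `√(κ L log L / 6)`;
* the excess at a prime is independent of the prime: among the primes with an excess `≥ s √(κ L log L / 6)`, a proportion
  `1 - 1/(2c)` are smaller than `(log x) ^ c` (`c ≥ 1/2`), whatever `s` is.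

So almost all the primes whose squares divide `abc` are larger than `(log x) ^ (1/2 - ε)` and half of them are larger than
`log x`, and the exponents of the primes of size `(log x) ^ c` are distributed exponentially with mean
`√(κ L / (6 log L)) / c`.

Proof: the points of `P^1(ℚ) - {0, -1, ∞}` are counted with the weights `w ^ #{v : N(v) ≤ u ^ (-t), (v(y) - 1) log N(v) ≥ b / u}`
(generating function with a local factor which is a cut geometric series, gap principle), then Chernoff bounds, a grid, and the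
comparison with the number of all exceptional points, known up to `exp (o(√(T / log T)))` from the starting files `N906/RS`.
-/

set_option autoImplicit false

namespace Pool.Agent.Results.MP_2ec8a3_nt.PrimePowerLaw

/-- the radical of `n`, the product of the primes dividing `n` -/
def radical (n : ℕ) : ℕ := ∏ p ∈ n.primeFactors, p

/-- the exceptions: the pairs `(a, b)` of coprime positive integers such that `c = a + b` satisfies `c ≤ x` and
`rad (abc) ^ M ≤ c` -/
def Exceptions (M x : ℝ) : Set (ℕ × ℕ) :=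
  {t | 0 < t.1 ∧ 0 < t.2 ∧ Nat.Coprime t.1 t.2 ∧ ((t.1 + t.2 : ℕ) : ℝ) ≤ x ∧
    (radical (t.1 * t.2 * (t.1 + t.2)) : ℝ) ^ M ≤ ((t.1 + t.2 : ℕ) : ℝ)}

/-- the number of the primes `p ≤ z` with `p ^ 2 ∣ n` and `(v_p(n) - 1) log p ≥ τ` -/
noncomputable def excessCount (z τ : ℝ) (n : ℕ) : ℕ :=
  {p : ℕ | p.Prime ∧ (p : ℝ) ≤ z ∧ p ^ 2 ∣ n ∧
    τ ≤ ((n.factorization p : ℝ) - 1) * Real.log p}.ncard

/-- the number of the prime powers, `√(2κL/(3 log L))` with `L = log x`, `κ = 3 - 1/M` -/
noncomputable def number (M x : ℝ) : ℝ :=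
  √(2 * (3 - 1 / M) * Real.log x / (3 * Real.log (Real.log x)))

/-- their mean size, `√(κ L log L / 6)` with `L = log x`, `κ = 3 - 1/M` -/
noncomputable def size (M x : ℝ) : ℝ :=
  √((3 - 1 / M) * Real.log x * Real.log (Real.log x) / 6)

/-- the proportion of the primes up to `z`, `max (0, 1 - log L / (2 log z))` with `L = log x` -/
noncomputable def part (x z : ℝ) : ℝ := max 0 (1 - Real.log (Real.log x) / (2 * Real.log z))

/-- the law of the prime powers in `a`, `b`, `a + b`, with an error `ε` -/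
def PowerLaw (M ε x : ℝ) (t : ℕ × ℕ) : Prop :=
  ∀ n ∈ ({t.1, t.2, t.1 + t.2} : Set ℕ), ∀ z s : ℝ, 2 ≤ z → 0 ≤ s →
    |(excessCount z (s * size M x) n : ℝ) - part x z * Real.exp (-s) * number M x| ≤
      ε * number M x

open Pool.Agent.Run7.h585.NF Pool.Agent.Run7.h585.NF.RatB in
/-- **The law of the prime powers.** Let `1/3 < M < 1/2` and `ε > 0`. There are `δ > 0` and `x₀` such that, for `x ≥ x₀`,
the set of the exceptions is finite and all but at most the proportion `exp (-δ √(log x / log log x))` of its elements satisfy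
the law of the prime powers with the error `ε`. -/
theorem result : ∀ M ε : ℝ, 1 / 3 < M → M < 1 / 2 → 0 < ε → ∃ δ x₀ : ℝ, 0 < δ ∧ ∀ x : ℝ, x₀ ≤ x →
    (Exceptions M x).Finite ∧
      (({t | t ∈ Exceptions M x ∧ ¬ PowerLaw M ε x t} : Set (ℕ × ℕ)).ncard : ℝ) ≤
        Real.exp (-(δ * √(Real.log x / Real.log (Real.log x)))) * (Exceptions M x).ncard := by
  intro M ε hM1 hM2 hε
  have hM0 : 0 < M := by linarith
  obtain ⟨κ, hκd⟩ : ∃ κ : ℝ, κ = 3 - 1 / M := ⟨_, rfl⟩
  have hκ : 0 < κ := by
    rw [hκd, sub_pos, div_lt_iff₀ hM0]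
    linarith
  have hκ1 : κ < 1 := by
    have : 2 < 1 / M := by
      rw [lt_div_iff₀ hM0]
      linarith
    rw [hκd]
    linarith
  obtain ⟨δ, X₀, hδ, hX₀, h⟩ := prop_nat κ 0 ε hκ hκ1 le_rfl hε
  refine ⟨δ * √(κ * 1 / 3), Real.exp X₀, by positivity, fun x hx => ?_⟩
  have hx0 : 0 < x := (Real.exp_pos _).trans_le hx
  have hL : X₀ ≤ Real.log x := (Real.le_log_iff_exp_le hx0).2 hx
  have hL3 : 3 ≤ Real.log x := hX₀.trans hL
  have hrad : ∀ n, radical n = rad n := fun n => rfl
  have hiff : ∀ a b : ℕ, 0 < a → 0 < b → ((radical (a * b * (a + b)) : ℝ) ^ M ≤ ((a + b : ℕ) : ℝ) ↔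
      Real.log (rad (a * b * (a + b))) ≤ (3 - κ) * Real.log ((a + b : ℕ) : ℝ)) := by
    intro a b ha hb
    have h1 : (0 : ℝ) < rad (a * b * (a + b)) := by exact_mod_cast rad_pos _
    have h2 : (0 : ℝ) < ((a + b : ℕ) : ℝ) := by
      have : 0 < a + b := by omega
      exact_mod_cast this
    have e : 3 - κ = 1 / M := by rw [hκd]; ring
    rw [hrad, e, ← Real.log_le_log_iff (Real.rpow_pos_of_pos h1 M) h2, Real.log_rpow h1,
      one_div, inv_mul_eq_div, le_div_iff₀ hM0, mul_comm]
  obtain ⟨hfin, hB⟩ := h (Real.log x) hL (Exceptions M x) (by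
    intro a b ha hb hab h1 h2
    have hc : (0 : ℝ) < ((a + b : ℕ) : ℝ) := by
      have : 0 < a + b := by omega
      exact_mod_cast this
    exact ⟨ha, hb, hab, (Real.log_le_log_iff hc hx0).1 h1, (hiff a b ha hb).2 h2⟩) (by
    rintro ⟨a, b⟩ ⟨ha, hb, hab, h1, h2⟩
    have hc : (0 : ℝ) < ((a + b : ℕ) : ℝ) := by
      have : 0 < a + b := Nat.add_pos_left ha b
      exact_mod_cast this
    refine ⟨ha, hb, hab, (Real.log_le_log_iff hc hx0).2 h1, ?_⟩
    rw [add_zero]
    exact (hiff a b ha hb).1 h2)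
  refine ⟨hfin, ?_⟩
  have hset : {t | t ∈ Exceptions M x ∧ ¬ PowerLaw M ε x t} ⊆
      {p | p ∈ Exceptions M x ∧ ¬ LawN κ ε (Real.log x) p.1 p.2} := by
    rintro ⟨a, b⟩ ⟨h1, h2⟩
    refine ⟨h1, fun h3 => h2 ?_⟩
    intro n hn z s hz hs
    obtain ⟨l, hl⟩ : ∃ l : Fin 3, m3 a b l = n := by
      revert hn
      rintro (rfl | rfl | rfl)
      · exact ⟨0, rfl⟩
      · exact ⟨1, rfl⟩
      · exact ⟨2, rfl⟩
    have hlam := lam_pos hκ hL3
    have e1 : size M x = lam κ (Real.log x) := by
      rw [lam_eq hκ hL3, hκd]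
      rfl
    have e2 : part x z = pr (Real.log x) z := rfl
    have e3 : number M x = s1 κ (Real.log x) := by rw [hκd]; rfl
    have h4 := h3 l z (s * lam κ (Real.log x)) hz (by positivity)
    rw [hl, mul_div_cancel_right₀ _ hlam.ne'] at h4
    have e4 : excessCount z (s * size M x) n = exc z (s * lam κ (Real.log x)) n := by
      rw [e1]
      rfl
    rw [e4, e2, e3]
    exact h4
  have h1 : (({t | t ∈ Exceptions M x ∧ ¬ PowerLaw M ε x t} : Set (ℕ × ℕ)).ncard : ℝ) ≤
      ({p | p ∈ Exceptions M x ∧ ¬ LawN κ ε (Real.log x) p.1 p.2} : Set (ℕ × ℕ)).ncard := by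
    exact_mod_cast Set.ncard_le_ncard hset (hfin.subset fun p hp => hp.1)
  refine (h1.trans hB).trans ?_
  apply mul_le_mul_of_nonneg_right _ (Nat.cast_nonneg _)
  apply Real.exp_le_exp.2
  have h2 := s1_ge (κ := κ) (d := 1) hκ.le le_rfl hL3 (by linarith)
  rw [one_mul] at h2
  have h3 := mul_le_mul_of_nonneg_left h2 hδ.le
  linarith

end Pool.Agent.Results.MP_2ec8a3_nt.PrimePowerLaw
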