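import Pool.Agent.N906.QP.All
import Pool.Agent.Run7.h151.FR.Final

/-!
# The second order term in the number of the exceptions to Oesterlé's inequality, ordered by radical

The abc triples `(a, b, c)` with `rad (abc) ≤ X` which violate `c < rad (abc) ^ M`. For every
`1/3 < M < 3/7` and every `A ≥ M` the number of those with `c ≤ X ^ A` is
`X ^ (1 - M) * exp ((√(24 (3 M - 1)) + o(1)) √(log X / log log X))`, and for `M > 1/3` close to `1/3`
this is the number of all of them, whatever the size of `c`. (The first order `X ^ (1 - M + o(1))` for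
`M` close to `1/3` is `Pool.Agent.Results.MP_2ec8a3_nt.ExceptionExponent`.)
-/

set_option autoImplicit false

namespace Pool.Agent.Results.MP_2ec8a3_nt.SecondOrderByRadical

open Filter Topology

/-- the product of the primes dividing `n` -/
def radical (n : ℕ) : ℕ := ∏ p ∈ n.primeFactors, p

/-- the radical of `abc` for the triple `(a, b, a + b)` written `(a, b)` -/
def rad3 (p : ℕ × ℕ) : ℕ := radical (p.1 * p.2 * (p.1 + p.2))

/-- the exceptions to Oesterlé's inequality with the exponent `M`: the abc triples `(a, b, a + b)`,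
written `(a, b)`, `a` and `b` coprime, `1 ≤ a ≤ b`, of radical at most `X` and with
`c = a + b ≥ rad (abc) ^ M`; there is no other condition on the size of `c` -/
def exceptions (M X : ℝ) : Set (ℕ × ℕ) :=
  {p | 0 < p.1 ∧ p.1 ≤ p.2 ∧ Nat.Coprime p.1 p.2 ∧ (rad3 p : ℝ) ≤ X ∧
    (rad3 p : ℝ) ^ M ≤ ((p.1 + p.2 : ℕ) : ℝ)}

/-- the exceptions with `c ≤ Z` -/
def exceptionsUpTo (M X Z : ℝ) : Set (ℕ × ℕ) :=
  {p | p ∈ exceptions M X ∧ ((p.1 + p.2 : ℕ) : ℝ) ≤ Z}

/-- **The second order term.** -/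
theorem result :
    (∀ M X : ℝ, (exceptions M X).Finite) ∧
    (∀ M A : ℝ, 1 / 3 < M → M < 3 / 7 → M ≤ A →
      Tendsto (fun X : ℝ => (Real.log ((exceptionsUpTo M X (X ^ A)).ncard : ℝ) -
        (1 - M) * Real.log X) / √(Real.log X / Real.log (Real.log X))) atTop
        (𝓝 √(24 * (3 * M - 1)))) ∧
    ∃ M₀ : ℝ, 1 / 3 < M₀ ∧ ∀ M : ℝ, 1 / 3 < M → M < M₀ →
      Tendsto (fun X : ℝ => (Real.log ((exceptions M X).ncard : ℝ) -
        (1 - M) * Real.log X) / √(Real.log X / Real.log (Real.log X))) atTop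
        (𝓝 √(24 * (3 * M - 1))) := by
  have h1 := Pool.Agent.N906.KG.upu_three ℚ
  have h2 := Pool.Agent.N906.KG.loj_all ℚ
  refine ⟨fun _ X => (Pool.Agent.Y911.AB.triples_finite' X).subset fun _ hp =>
    ⟨hp.1, hp.2.1, hp.2.2.1, hp.2.2.2.1⟩, fun M A hM hM2 hA => ?_, ?_⟩
  · refine ((Pool.Agent.Run7.h151.FR.lim_upTo h1 h2 hM hM2 hA).comp
      Real.tendsto_log_atTop).congr' ?_
    filter_upwards [eventually_gt_atTop (0 : ℝ)] with X hX
    have e : ({p | Pool.Agent.Run7.h151.FR.Exc M (Real.log X) (A * Real.log X) p} :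
        Set (ℕ × ℕ)) = exceptionsUpTo M X (X ^ A) := by
      ext p
      have e1 : Real.exp (Real.log X) = X := Real.exp_log hX
      have e2 : Real.exp (A * Real.log X) = X ^ A := by
        rw [mul_comm, Real.exp_mul, Real.exp_log hX]
      constructor
      · rintro ⟨g1, g2, g3, g4, g5, g6⟩
        rw [e1] at g4
        rw [e2] at g6
        exact ⟨⟨g1, g2, g3, g4, g5⟩, g6⟩
      · rintro ⟨⟨g1, g2, g3, g4, g5⟩, g6⟩
        refine ⟨g1, g2, g3, ?_, g5, ?_⟩
        · rw [e1]
          exact g4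
        · rw [e2]
          exact g6
    simp only [Function.comp_apply]
    rw [e]
  · obtain ⟨M₀, h3, h4⟩ := Pool.Agent.Run7.h151.FR.lim_all h1 h2
    refine ⟨M₀, h3, fun M hM hMM => ?_⟩
    refine ((h4 M hM hMM).comp Real.tendsto_log_atTop).congr' ?_
    filter_upwards [eventually_gt_atTop (0 : ℝ)] with X hX
    have e : ({p | Pool.Agent.Run7.h151.FR.ExcA M (Real.log X) p} : Set (ℕ × ℕ)) =
        exceptions M X := by
      ext p
      have e1 : Real.exp (Real.log X) = X := Real.exp_log hX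
      constructor
      · rintro ⟨g1, g2, g3, g4, g5⟩
        rw [e1] at g4
        exact ⟨g1, g2, g3, g4, g5⟩
      · rintro ⟨g1, g2, g3, g4, g5⟩
        refine ⟨g1, g2, g3, ?_, g5⟩
        rw [e1]
        exact g4
    simp only [Function.comp_apply]
    rw [e]

end Pool.Agent.Results.MP_2ec8a3_nt.SecondOrderByRadical
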