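import Pool.Agent.Run7.h585.LD.Rad
import Pool.Agent.Results.MP_2ec8a3_nt.SecondOrderByRadical

/-!
# The typical exceptions to Oesterlé's inequality, ordered by radical

The abc triples `(a, b, c)` with `rad (abc) ≤ X` which violate `c < rad (abc) ^ M`. For every
`1/3 < M < 3/7` and every `A ≥ M` all but a proportion `exp (-δ √(log X / log log X))` of those with
`c ≤ X ^ A` have `c = X ^ (M + o(1))` and `rad a`, `rad b`, `rad c` all `X ^ (1/3 + o(1))`; and for
`M > 1/3` close to `1/3` this holds for all exceptions, whatever the size of `c`.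

The proof is a large deviation bound with its second order term for the pair of the height and the
three radicals (`Run7.h585.LD.four_up`): the number of the triples with `log c = μ log X`,
`rad = c ^ (1 - g)` for the three members is `X ^ ((2 - ∑ g) μ)` times
`exp ((√8 ∑ √(g_l μ) + o(1)) √(log X / log log X))`, and `∑ √(g_l μ)` has a strict maximum.

Written by helper585; the number of the exceptions is by helper151 (`SecondOrderByRadical`).
-/

set_option autoImplicit false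

namespace Pool.Agent.Results.MP_2ec8a3_nt.TypicalExceptionsByRadical

open Filter Topology

/-- the product of the primes dividing `n` -/
def radical (n : ℕ) : ℕ := ∏ p ∈ n.primeFactors, p

/-- the radical of `abc` for the triple `(a, b, a + b)` written `(a, b)` -/
def rad3 (p : ℕ × ℕ) : ℕ := radical (p.1 * p.2 * (p.1 + p.2))

/-- the exceptions to Oesterlé's inequality with the exponent `M`: the abc triples `(a, b, a + b)`,
written `(a, b)`, `a` and `b` coprime, `1 ≤ a ≤ b`, of radical at most `X` and with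
`c = a + b ≥ rad (abc) ^ M`; there is no other condition on the size of `c` -/
def exceptions (M X : ℝ) : Set (ℕ × ℕ) :=
  {p | 0 < p.1 ∧ p.1 ≤ p.2 ∧ Nat.Coprime p.1 p.2 ∧ (rad3 p : ℝ) ≤ X ∧
    (rad3 p : ℝ) ^ M ≤ ((p.1 + p.2 : ℕ) : ℝ)}

/-- the exceptions with `c ≤ Z` -/
def exceptionsUpTo (M X Z : ℝ) : Set (ℕ × ℕ) :=
  {p | p ∈ exceptions M X ∧ ((p.1 + p.2 : ℕ) : ℝ) ≤ Z}

/-- `X ^ (M - η) < c < X ^ (M + η)`, and `X ^ (1/3 - η) < rad n < X ^ (1/3 + η)` for `n = a, b, c` -/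
def Typical (M η X : ℝ) (p : ℕ × ℕ) : Prop :=
  (X ^ (M - η) < ((p.1 + p.2 : ℕ) : ℝ) ∧ ((p.1 + p.2 : ℕ) : ℝ) < X ^ (M + η)) ∧
  ∀ n ∈ ({p.1, p.2, p.1 + p.2} : Set ℕ), X ^ (1 / 3 - η) < (radical n : ℝ) ∧
    (radical n : ℝ) < X ^ (1 / 3 + η)

section

open Run7.h585.LD

theorem rpow_exp {X : ℝ} (hX : 0 < X) (s : ℝ) : Real.exp (s * Real.log X) = X ^ s := by
  rw [Real.rpow_def_of_pos hX, mul_comm]

theorem typ_iff {M η X : ℝ} (hX : 0 < X) (p : ℕ × ℕ) :
    Typ M η (Real.log X) p ↔ Typical M η X p := by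
  unfold Typ Typical
  simp only [rpow_exp hX]
  rfl

theorem ex_iff {M A X : ℝ} (hX : 0 < X) (p : ℕ × ℕ) :
    Ex M (Real.log X) (A * Real.log X) p ↔ p ∈ exceptionsUpTo M X (X ^ A) := by
  have e1 : Real.exp (Real.log X) = X := Real.exp_log hX
  have e2 : Real.exp (A * Real.log X) = X ^ A := rpow_exp hX A
  constructor
  · rintro ⟨g1, g2, g3, g4, g5, g6⟩
    rw [e1] at g4
    rw [e2] at g6
    exact ⟨⟨g1, g2, g3, g4, g5⟩, g6⟩
  · rintro ⟨⟨g1, g2, g3, g4, g5⟩, g6⟩
    refine ⟨g1, g2, g3, ?_, g5, ?_⟩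
    · rw [e1]
      exact g4
    · rw [e2]
      exact g6

theorem exceptions_finite (M X : ℝ) : (exceptions M X).Finite :=
  SecondOrderByRadical.result.1 M X

theorem upTo_finite (M X Z : ℝ) : (exceptionsUpTo M X Z).Finite :=
  (exceptions_finite M X).subset fun _ hp => hp.1

/-- the upper bound for the atypical exceptions -/
theorem atypical {M A η : ℝ} (hM : 1 / 3 < M) (hM2 : M < 3 / 7) (hη : 0 < η) :
    ∃ W : ℝ, 0 ≤ W ∧ W < √(24 * (3 * M - 1)) ∧ ∀ᶠ X : ℝ in atTop,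
      (({p ∈ exceptionsUpTo M X (X ^ A) | ¬ Typical M η X p}.ncard : ℕ) : ℝ) ≤
        2 * Real.exp ((1 - M) * Real.log X + W * √(Real.log X / Real.log (Real.log X))) := by
  obtain ⟨W, hW0, hW, Y₀, -, h⟩ := atyp A hM hM2 hη
  refine ⟨W, hW0, hW, ?_⟩
  filter_upwards [Real.tendsto_log_atTop.eventually_ge_atTop Y₀, eventually_gt_atTop (0 : ℝ)]
    with X hX hX0
  have h1 := h _ hX
  have e : {p | Ex M (Real.log X) (A * Real.log X) p ∧ ¬ Typ M η (Real.log X) p} =
      {p ∈ exceptionsUpTo M X (X ^ A) | ¬ Typical M η X p} := by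
    ext p
    rw [Set.mem_ofPred_eq, ex_iff hX0, typ_iff hX0]
    rfl
  rw [e] at h1
  exact h1

/-- the lower bound for all exceptions -/
theorem lower {M A ε : ℝ} (hM : 1 / 3 < M) (hM2 : M < 3 / 7) (hA : M ≤ A) (hε : 0 < ε) :
    ∀ᶠ X : ℝ in atTop, Real.exp ((1 - M) * Real.log X +
      (√(24 * (3 * M - 1)) - ε) * √(Real.log X / Real.log (Real.log X))) ≤
        ((exceptionsUpTo M X (X ^ A)).ncard : ℝ) := by
  have h := SecondOrderByRadical.result.2.1 M A hM hM2 hA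
  have hpos : 0 < √(24 * (3 * M - 1)) := Real.sqrt_pos.2 (by linarith)
  obtain ⟨ε', hε'⟩ : ∃ ε' : ℝ, ε' = min ε √(24 * (3 * M - 1)) := ⟨_, rfl⟩
  have hε'0 : 0 < ε' := by rw [hε']; exact lt_min hε hpos
  have hε'1 : ε' ≤ ε := by rw [hε']; exact min_le_left _ _
  have hε'2 : ε' ≤ √(24 * (3 * M - 1)) := by rw [hε']; exact min_le_right _ _
  have h2 := h.eventually_const_le (show √(24 * (3 * M - 1)) - ε' < √(24 * (3 * M - 1)) by
    linarith)
  filter_upwards [h2, Real.tendsto_log_atTop.eventually_gt_atTop 1] with X hX hY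
  have hlY : 0 < Real.log (Real.log X) := Real.log_pos hY
  have hV0 : 0 < √(Real.log X / Real.log (Real.log X)) :=
    Real.sqrt_pos.2 (div_pos (by linarith) hlY)
  obtain ⟨V, hV⟩ : ∃ V : ℝ, V = √(Real.log X / Real.log (Real.log X)) := ⟨_, rfl⟩
  rw [← hV] at hX hV0 ⊢
  obtain ⟨N, hN⟩ : ∃ N : ℝ, N = ((exceptionsUpTo M X (X ^ A)).ncard : ℝ) := ⟨_, rfl⟩
  have hX' : √(24 * (3 * M - 1)) - ε' ≤ (Real.log N - (1 - M) * Real.log X) / V := by
    rw [hN]
    exact hX
  rw [← hN]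
  rw [le_div_iff₀ hV0] at hX'
  have e1 : 0 ≤ (√(24 * (3 * M - 1)) - ε') * V := mul_nonneg (by linarith) hV0.le
  have e2 : 0 < (1 - M) * Real.log X := mul_pos (by linarith) (by linarith)
  have e3 : 0 < Real.log N := by linarith
  have e4 : 0 ≤ N := by rw [hN]; positivity
  have e5 : 0 < N := by
    refine lt_of_le_of_ne e4 fun h0 => ?_
    rw [← h0, Real.log_zero] at e3
    exact lt_irrefl _ e3
  rw [← Real.le_log_iff_exp_le e5]
  have e6 : (√(24 * (3 * M - 1)) - ε) * V ≤ (√(24 * (3 * M - 1)) - ε') * V :=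
    mul_le_mul_of_nonneg_right (by linarith) hV0.le
  linarith

/-- comparison -/
theorem compare {W S : ℝ} (hWS : W < S) : ∃ δ ε : ℝ, 0 < δ ∧ 0 < ε ∧ ∀ᶠ X : ℝ in atTop,
    ∀ a N1 N2 : ℝ, N1 ≤ 3 * Real.exp (a + W * √(Real.log X / Real.log (Real.log X))) →
      Real.exp (a + (S - ε) * √(Real.log X / Real.log (Real.log X))) ≤ N2 →
      N1 ≤ Real.exp (-(δ * √(Real.log X / Real.log (Real.log X)))) * N2 := by
  refine ⟨(S - W) / 3, (S - W) / 3, by linarith, by linarith, ?_⟩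
  have h := ((Pool.Agent.N906.RS.small 2).comp Real.tendsto_log_atTop).eventually_le_const
    (show (0 : ℝ) < (S - W) / 3 by linarith)
  filter_upwards [h, Real.tendsto_log_atTop.eventually_gt_atTop 1] with X hX hY a N1 N2 h1 h2
  simp only [Function.comp_apply] at hX
  have hlY : 0 < Real.log (Real.log X) := Real.log_pos hY
  have hV0 : 0 < √(Real.log X / Real.log (Real.log X)) :=
    Real.sqrt_pos.2 (div_pos (by linarith) hlY)
  obtain ⟨V, hV⟩ : ∃ V : ℝ, V = √(Real.log X / Real.log (Real.log X)) := ⟨_, rfl⟩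
  rw [← hV] at hX hV0 h1 h2 ⊢
  rw [div_le_iff₀ hV0] at hX
  have h3 := mul_le_mul_of_nonneg_left h2 (Real.exp_pos (-((S - W) / 3 * V))).le
  refine h1.trans (le_trans ?_ h3)
  have e3 : (3 : ℝ) ≤ Real.exp 2 := by
    have := Real.add_one_le_exp (2 : ℝ)
    linarith
  calc 3 * Real.exp (a + W * V) ≤ Real.exp 2 * Real.exp (a + W * V) :=
        mul_le_mul_of_nonneg_right e3 (Real.exp_pos _).le
    _ = Real.exp (2 + (a + W * V)) := (Real.exp_add _ _).symm
    _ ≤ Real.exp (-((S - W) / 3 * V) + (a + (S - (S - W) / 3) * V)) := by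
        apply Real.exp_le_exp.2
        linarith
    _ = _ := Real.exp_add _ _

end

/-- **The typical exceptions to Oesterlé's inequality, ordered by radical.** For `1/3 < M < 3/7`,
`M ≤ A` and `η > 0` there is `δ > 0` such that for large `X` at most a proportion
`exp (-δ √(log X / log log X))` of the abc triples with `rad (abc) ≤ X`,
`rad (abc) ^ M ≤ c ≤ X ^ A` fail `X ^ (M - η) < c < X ^ (M + η)` or
`X ^ (1/3 - η) < rad n < X ^ (1/3 + η)` for some `n` among `a`, `b`, `c`. There is `M₀ > 1/3` such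
that for `1/3 < M < M₀` this holds without the condition `c ≤ X ^ A`. -/
theorem result :
    (∀ M A η : ℝ, 1 / 3 < M → M < 3 / 7 → M ≤ A → 0 < η → ∃ δ : ℝ, 0 < δ ∧
      ∀ᶠ X : ℝ in atTop,
        (({p ∈ exceptionsUpTo M X (X ^ A) | ¬ Typical M η X p}.ncard : ℕ) : ℝ) ≤
          Real.exp (-(δ * √(Real.log X / Real.log (Real.log X)))) *
            ((exceptionsUpTo M X (X ^ A)).ncard : ℝ)) ∧
    ∃ M₀ : ℝ, 1 / 3 < M₀ ∧ ∀ M η : ℝ, 1 / 3 < M → M < M₀ → 0 < η → ∃ δ : ℝ, 0 < δ ∧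
      ∀ᶠ X : ℝ in atTop,
        (({p ∈ exceptions M X | ¬ Typical M η X p}.ncard : ℕ) : ℝ) ≤
          Real.exp (-(δ * √(Real.log X / Real.log (Real.log X)))) *
            ((exceptions M X).ncard : ℝ) := by
  constructor
  · intro M A η hM hM2 hA hη
    obtain ⟨W, hW0, hW, h1⟩ := atypical (A := A) hM hM2 hη
    obtain ⟨δ, ε, hδ, hε, h2⟩ := compare hW
    refine ⟨δ, hδ, ?_⟩
    filter_upwards [h1, h2, lower hM hM2 hA hε] with X g1 g2 g3
    refine g2 _ _ _ (g1.trans ?_) g3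
    have := Real.exp_pos ((1 - M) * Real.log X + W * √(Real.log X / Real.log (Real.log X)))
    linarith
  · obtain ⟨M₀, hM0, hM1, hup⟩ := Pool.Agent.Y911.AB.upper_exc
    refine ⟨M₀, hM0, fun M η hM hMM hη => ?_⟩
    obtain ⟨W, hW0, hW, h1⟩ := atypical (A := M₀) hM (by linarith) hη
    obtain ⟨δ, ε, hδ, hε, h2⟩ := compare hW
    obtain ⟨C, hC, hlarge⟩ := hup M₀ hM0 le_rfl ((M₀ - M) / 2) (by linarith)
    refine ⟨δ, hδ, ?_⟩
    have t1 : Tendsto (fun X : ℝ => (M₀ - M) / 2 * Real.log X) atTop atTop :=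
      Real.tendsto_log_atTop.const_mul_atTop (by linarith)
    filter_upwards [h1, h2, lower hM (by linarith) hMM.le hε,
      t1.eventually_ge_atTop (Real.log C), eventually_ge_atTop (1 : ℝ),
      Real.tendsto_log_atTop.eventually_gt_atTop 1] with X g1 g2 g3 g4 g5 g6
    have hX0 : 0 < X := by linarith
    obtain ⟨V, hV⟩ : ∃ V : ℝ, V = √(Real.log X / Real.log (Real.log X)) := ⟨_, rfl⟩
    have hV0 : 0 ≤ V := by rw [hV]; exact Real.sqrt_nonneg _
    have hsub2 : exceptionsUpTo M X (X ^ M₀) ⊆ exceptions M X := fun _ hp => hp.1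
    have g7 : ((exceptionsUpTo M X (X ^ M₀)).ncard : ℝ) ≤ ((exceptions M X).ncard : ℝ) := by
      exact_mod_cast Set.ncard_le_ncard hsub2 (exceptions_finite M X)
    refine g2 _ _ _ ?_ (g3.trans g7)
    rw [← hV] at g1 ⊢
    have hsub : {p ∈ exceptions M X | ¬ Typical M η X p} ⊆
        {p ∈ exceptionsUpTo M X (X ^ M₀) | ¬ Typical M η X p} ∪ Pool.Agent.Y911.AA.viol M₀ X := by
      rintro p ⟨hp, hp2⟩
      by_cases hc : ((p.1 + p.2 : ℕ) : ℝ) ≤ X ^ M₀
      · exact Or.inl ⟨⟨hp, hc⟩, hp2⟩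
      · push Not at hc
        obtain ⟨e1, e2, e3, e4, e5⟩ := hp
        refine Or.inr ⟨⟨e1, e2, e3, e4⟩, ?_⟩
        have e6 : (0 : ℝ) ≤ (rad3 p : ℝ) := Nat.cast_nonneg _
        exact (Real.rpow_le_rpow e6 e4 (by linarith)).trans hc.le
    have hf1 : {p ∈ exceptionsUpTo M X (X ^ M₀) | ¬ Typical M η X p}.Finite :=
      (upTo_finite M X _).subset fun _ hp => hp.1
    have hf2 : (Pool.Agent.Y911.AA.viol M₀ X).Finite :=
      (Pool.Agent.Y911.AB.triples_finite' X).subset fun _ hp => hp.1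
    have k1 := Set.ncard_le_ncard hsub (hf1.union hf2)
    have k2 := Set.ncard_union_le {p ∈ exceptionsUpTo M X (X ^ M₀) | ¬ Typical M η X p}
      (Pool.Agent.Y911.AA.viol M₀ X)
    have k3 : (({p ∈ exceptions M X | ¬ Typical M η X p}.ncard : ℕ) : ℝ) ≤
        (({p ∈ exceptionsUpTo M X (X ^ M₀) | ¬ Typical M η X p}.ncard : ℕ) : ℝ) +
        ((Pool.Agent.Y911.AA.viol M₀ X).ncard : ℝ) := by
      exact_mod_cast k1.trans k2
    have k4 : ((Pool.Agent.Y911.AA.viol M₀ X).ncard : ℝ) ≤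
        Real.exp ((1 - M) * Real.log X + W * V) := by
      refine (hlarge X g5).trans ?_
      rw [Real.rpow_def_of_pos hX0]
      nth_rewrite 1 [← Real.exp_log hC]
      rw [← Real.exp_add]
      apply Real.exp_le_exp.2
      have e1 : (1 - M) * Real.log X = Real.log X * (1 - M₀ + (M₀ - M) / 2) +
          (M₀ - M) / 2 * Real.log X := by ring
      have e2 : 0 ≤ W * V := mul_nonneg hW0 hV0
      linarith
    linarith

end Pool.Agent.Results.MP_2ec8a3_nt.TypicalExceptionsByRadical
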